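import Mathlib

set_option autoImplicit false

namespace Pool.Agent.U1.Tame

/-- Finitely supported functions with support in `A`. -/
def X (A : Set ℕ) : Set (ℕ →₀ ℕ) := {x | ∀ k ∈ x.support, k ∈ A}

theorem X_isPWO (A : Set ℕ) (hA : A.Finite) : (X A).IsPWO := by
  classical
  have : Finite A := hA
  let _ : Fintype A := Fintype.ofFinite A
  let f : (A → ℕ) → (ℕ →₀ ℕ) := fun g =>
    Finsupp.onFinset hA.toFinset (fun k => if h : k ∈ A then g ⟨k, h⟩ else 0) (by
      intro a ha
      by_contra hcon
      apply ha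
      have : a ∉ A := by simpa using hcon
      simp [this])
  have hf : Monotone f := by
    intro g g' hgg' k
    simp only [f, Finsupp.onFinset_apply]
    by_cases h : k ∈ A
    · simp [h]; exact hgg' _
    · simp [h]
  have h1 : (Set.univ : Set (A → ℕ)).IsPWO := Set.isPWO_of_wellQuasiOrderedLE _
  refine (h1.image_of_monotone hf).mono ?_
  intro x hx
  refine ⟨fun a => x a, trivial, ?_⟩
  ext k
  simp only [f, Finsupp.onFinset_apply]
  by_cases h : k ∈ A
  · simp [h]
  · have : x k = 0 := by
      by_contra hne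
      exact h (hx k (by simpa using hne))
    simp [h, this]

theorem fin_min (A : Set ℕ) (hA : A.Finite) (U : Set (ℕ →₀ ℕ)) (hU : U ⊆ X A) :
    ∃ G : Finset (ℕ →₀ ℕ), (∀ g ∈ G, g ∈ U) ∧ ∀ u ∈ U, ∃ g ∈ G, g ≤ u := by
  classical
  have hpwo : U.IsPWO := (X_isPWO A hA).mono hU
  have hfin : {x | Minimal (· ∈ U) x}.Finite :=
    (setOfPred_minimal_antichain _).finite_of_partiallyWellOrderedOn
      (hpwo.mono (setOfPred_minimal_subset _))
  refine ⟨hfin.toFinset, ?_, ?_⟩
  · intro g hg
    have : Minimal (· ∈ U) g := by simpa using hg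
    exact this.prop
  · intro u hu
    obtain ⟨z, hz, hz'⟩ := hpwo.exists_le_minimal hu
    exact ⟨z, by simpa using hz', hz⟩

/-- value of a factorization -/
noncomputable def phi (x : ℕ →₀ ℕ) : ℕ := x.sum (fun k m => m * k)

theorem phi_add (x y : ℕ →₀ ℕ) : phi (x + y) = phi x + phi y := by
  unfold phi
  rw [Finsupp.sum_add_index']
  · intro a; simp
  · intro a b c; ring

theorem phi_single (k m : ℕ) : phi (Finsupp.single k m) = m * k := by
  unfold phi
  rw [Finsupp.sum_single_index]; simp

/-- If `phi x` is large, some coordinate is large. -/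
theorem exists_large (A : Set ℕ) (hA : A.Finite) (M : ℕ) :
    ∃ s₀ : ℕ, ∀ x ∈ X A, s₀ ≤ phi x → ∃ k ∈ A, k ≠ 0 ∧ M ≤ x k := by
  classical
  refine ⟨(∑ k ∈ hA.toFinset, M * k) + 1, ?_⟩
  intro x hx hs
  by_contra hcon
  push Not at hcon
  have : phi x ≤ ∑ k ∈ hA.toFinset, M * k := by
    unfold phi
    rw [Finsupp.sum_of_support_subset x (s := hA.toFinset)]
    · apply Finset.sum_le_sum
      intro k hk
      have hk' : k ∈ A := by simpa using hk
      by_cases h0 : k = 0
      · simp [h0]
      · exact Nat.mul_le_mul_right _ (hcon k hk' h0).le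
    · intro k hk; simpa using hx k hk
    · intro i _; simp
  omega

/-- The image under `phi` of the complement of an upper set is eventually periodic with period
any common multiple of `A`. -/
theorem periodic_compl (A : Set ℕ) (hA : A.Finite) (P : ℕ) (hP : ∀ a ∈ A, a ∣ P)
    (U : Set (ℕ →₀ ℕ)) (hU : U ⊆ X A)
    (hup : ∀ x ∈ U, ∀ y ∈ X A, x ≤ y → y ∈ U) :
    ∃ s₀ : ℕ, ∀ s, s₀ ≤ s →
      ((∃ x ∈ X A, x ∉ U ∧ phi x = s) ↔ (∃ x ∈ X A, x ∉ U ∧ phi x = s + P)) := by
  classical
  obtain ⟨G, hG, hG'⟩ := fin_min A hA U hU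
  obtain ⟨s₁, hs₁⟩ := exists_large A hA (G.sup (fun g => g.support.sup g))
  obtain ⟨s₂, hs₂⟩ := exists_large A hA P
  refine ⟨s₁ + s₂, ?_⟩
  intro s hs
  constructor
  · rintro ⟨x, hx, hxU, hxs⟩
    obtain ⟨k, hkA, hk0, hk⟩ := hs₁ x hx (by omega)
    obtain ⟨q, hq⟩ := hP k hkA
    refine ⟨x + Finsupp.single k q, ?_, ?_, ?_⟩
    · intro j hj
      have := Finsupp.support_add hj
      rw [Finset.mem_union] at this
      rcases this with h | h
      · exact hx j h
      · have := Finsupp.support_single_subset h
        rw [Finset.mem_singleton] at this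
        rw [this]; exact hkA
    · intro hmem
      obtain ⟨g, hg, hgle⟩ := hG' _ hmem
      apply hxU
      apply hup g (hG g hg) x hx
      intro j
      by_cases hjk : j = k
      · subst hjk
        refine le_trans ?_ hk
        have h1 : g j ≤ g.support.sup g := by
          by_cases h : j ∈ g.support
          · exact Finset.le_sup h
          · have : g j = 0 := by simpa using h
            rw [this]; exact Nat.zero_le _
        exact le_trans h1 (Finset.le_sup (f := fun g : ℕ →₀ ℕ => g.support.sup g) hg)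
      · have := hgle j
        rw [Finsupp.add_apply, Finsupp.single_apply, if_neg (Ne.symm hjk), add_zero] at this
        exact this
    · rw [phi_add, phi_single, hxs, hq]; ring
  · rintro ⟨x, hx, hxU, hxs⟩
    obtain ⟨k, hkA, hk0, hk⟩ := hs₂ x hx (by omega)
    obtain ⟨q, hq⟩ := hP k hkA
    have hqk : q ≤ x k := by
      refine le_trans ?_ hk
      rw [hq]
      exact Nat.le_mul_of_pos_left _ (Nat.pos_of_ne_zero hk0)
    have hle : Finsupp.single k q ≤ x := by
      intro j
      rw [Finsupp.single_apply]
      split_ifs with h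
      · subst h; exact hqk
      · exact Nat.zero_le _
    have hx' : x - Finsupp.single k q ≤ x := tsub_le_self
    refine ⟨x - Finsupp.single k q, ?_, ?_, ?_⟩
    · intro j hj
      apply hx j
      rw [Finsupp.mem_support_iff] at hj ⊢
      have := hx' j
      omega
    · intro hmem
      exact hxU (hup _ hmem x hx hx')
    · have h1 : phi x = phi (x - Finsupp.single k q) + phi (Finsupp.single k q) := by
        rw [← phi_add, tsub_add_cancel_of_le hle]
      rw [phi_single] at h1
      have : q * k = P := by rw [hq]; ring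
      omega

end Pool.Agent.U1.Tame
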